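import Pool.Agent.Helper95.C2.Spec

set_option autoImplicit false

/-! # Swarm C2, part TOG: toggling the Liouville function at a special prime -/

open Polynomial

namespace Pool.Agent.Helper85.C2

open Pool.Agent.Helper95.C2

universe u

/-- lift of a monic polynomial -/
theorem lift_monic {R S : Type u} [CommRing R] [CommRing S] (φ : R →+* S)
    (hφ : Function.Surjective φ) {p : S[X]} (hp : p.Monic) :
    ∃ q : R[X], q.map φ = p ∧ q.natDegree = p.natDegree ∧ q.Monic := by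
  apply lifts_and_natDegree_eq_and_monic _ hp
  rw [mem_lifts]
  exact map_surjective φ hφ p

theorem two_dvd_of_map {K : Type u} [Field K] [CharP K 2] [PerfectRing K 2] {p : (S8 K)[X]}
    (hp : p.map (red K) = 0) : ∃ z, p = 2 * z := by
  have h : C (2 : S8 K) ∣ p := by
    rw [C_dvd_iff_dvd_coeff]
    intro i
    rw [← red_eq_zero_iff, ← coeff_map, hp, coeff_zero]
  obtain ⟨z, hz⟩ := h
  exact ⟨z, by rw [hz]; rfl⟩

theorem exists_of_dvd {K : Type u} [Field K] [CharP K 2] [PerfectRing K 2] {f p : (S8 K)[X]}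
    (h : f.map (red K) ∣ p.map (red K)) : ∃ x z, p = f * x + 2 * z := by
  obtain ⟨w, hw⟩ := h
  obtain ⟨x, rfl⟩ := map_surjective (red K) (red_surjective K) w
  obtain ⟨z, hz⟩ := two_dvd_of_map (K := K) (p := p - f * x) (by
    rw [Polynomial.map_sub, Polynomial.map_mul, hw, sub_self])
  exact ⟨x, z, by rw [← hz]; ring⟩

theorem eight_poly {S : Type u} [CommRing S] (h8 : (8 : S) = 0) : (8 : S[X]) = 0 := by
  have : (8 : S[X]) = C (8 : S) := (map_ofNat C 8).symm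
  rw [this, h8, C_0]

theorem monic_add_two {S : Type u} [CommRing S] {ϖ : S[X]} (h : ϖ.Monic)
    (h0 : 0 < ϖ.natDegree) : (ϖ + 2).Monic ∧ (ϖ + 2).natDegree = ϖ.natDegree := by
  have h2 : (2 : S[X]) = C (2 : S) := (map_ofNat C 2).symm
  rw [h2]
  exact ⟨h.add_of_left (degree_C_le.trans_lt (natDegree_pos_iff_degree_pos.1 h0)),
    natDegree_add_C⟩

/-- the computation over the ring -/
theorem ring_part (hN : S_NRM.{u}) (hC : S_CNG.{u}) (hV : S_VAR.{u}) {S : Type u} [CommRing S]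
    [Nontrivial S] (h8 : (8 : S) = 0) (A G ϖ Mr : S[X]) (b μ : S) (hA : A.Monic)
    (hϖ : ϖ.Monic) (hϖ0 : 0 < ϖ.natDegree) (hMr : Mr.Monic) (hb : IsUnit b) (hμ : IsUnit μ)
    (hM : A ^ 2 * derivative G - C b * derivative A = C μ * (ϖ * (ϖ + 2) * Mr))
    (h1 : ϖ ∣ A * G + C b) (h2 : (ϖ + 2) ∣ A * G + C b - 4 * A)
    (H1 H2 Y1 Y2 : S[X]) (hH1 : H1.Monic) (hH2 : H2.Monic) (hG1 : G.natDegree < 8 * H1.natDegree)
    (hG2 : G.natDegree < 8 * H2.natDegree) (hc1 : IsCoprime ϖ H1) (hc2 : IsCoprime ϖ H2)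
    (hY1 : (ϖ + 2) ∣ H1 * Y1 - 1) (hY2 : (ϖ + 2) ∣ H2 * Y2 - 1)
    (hH : ∃ x y : S[X], H1 - H2 = Mr * x + 2 * y) :
    ∃ ρ : S, IsUnit ρ ∧ dsc (A * (G + H1 ^ 8) + C b) =
      ρ ^ 2 * rs (ϖ + 2) (1 + 4 * (Y1 ^ 8 + Y2 ^ 8)) * dsc (A * (G + H2 ^ 8) + C b) := by
  have h8' := eight_poly h8
  obtain ⟨hm2, -⟩ := monic_add_two hϖ hϖ0
  have hmm : (ϖ * (ϖ + 2)).Monic := hϖ.mul hm2
  obtain ⟨κ, hκ⟩ := hN S h8 A G (ϖ * (ϖ + 2) * Mr) b μ hA (hmm.mul hMr) hb hμ hM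
  have e1 := hκ H1 hH1 hG1
  have e2 := hκ H2 hH2 hG2
  rw [rs_mul_left hmm hMr, hV S A G ϖ b hϖ hϖ0 h1 h2 H1 Y1 hY1] at e1
  rw [rs_mul_left hmm hMr, hV S A G ϖ b hϖ hϖ0 h1 h2 H2 Y2 hY2,
    ← hC S h8 A G Mr b H1 H2 hMr hH] at e2
  -- units
  have cop : ∀ H Y : S[X], (ϖ + 2) ∣ H * Y - 1 → IsCoprime (ϖ + 2) H := by
    rintro H Y ⟨k, hk⟩
    exact ⟨-k, Y, by linear_combination hk⟩
  have u1 : IsUnit (rs (ϖ * (ϖ + 2)) H1) :=
    (isUnit_rs_iff hmm _).2 (hc1.mul_left (cop _ _ hY1))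
  have u2 : IsUnit (rs (ϖ * (ϖ + 2)) H2) :=
    (isUnit_rs_iff hmm _).2 (hc2.mul_left (cop _ _ hY2))
  obtain ⟨v1, hv1⟩ := (hμ.pow H1.natDegree).mul u1
  obtain ⟨v2, hv2⟩ := (hμ.pow H2.natDegree).mul u2
  -- the unit `t₂`
  obtain ⟨t1, ht1⟩ : ∃ t, t = rs (ϖ + 2) (1 + 4 * Y1 ^ 8) := ⟨_, rfl⟩
  obtain ⟨t2, ht2⟩ : ∃ t, t = rs (ϖ + 2) (1 + 4 * Y2 ^ 8) := ⟨_, rfl⟩
  obtain ⟨s2, hs2⟩ : ∃ t, t = rs (ϖ + 2) (1 - 4 * Y2 ^ 8) := ⟨_, rfl⟩
  have hts : t2 * s2 = 1 := by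
    rw [ht2, hs2, ← rs_mul_right hm2]
    have : (1 + 4 * Y2 ^ 8) * (1 - 4 * Y2 ^ 8) = (1 : S[X]) := by
      have : (1 + 4 * Y2 ^ 8) * (1 - 4 * Y2 ^ 8) = 1 - 8 * (2 * Y2 ^ 16) := by ring
      rw [this, h8', zero_mul, sub_zero]
    rw [this, rs_one]
  have hT : rs (ϖ + 2) (1 + 4 * (Y1 ^ 8 + Y2 ^ 8)) = t1 * t2 := by
    rw [ht1, ht2, ← rs_mul_right hm2]
    congr 1
    have : (1 + 4 * Y1 ^ 8) * (1 + 4 * Y2 ^ 8) =
        1 + 4 * (Y1 ^ 8 + Y2 ^ 8) + 8 * (2 * (Y1 ^ 8 * Y2 ^ 8)) := by ring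
    rw [this, h8', zero_mul, add_zero]
  refine ⟨(v1 : S) ^ 4 * ((v2⁻¹ : Sˣ) : S) ^ 4 * s2, ?_, ?_⟩
  · exact ((v1.isUnit.pow 4).mul ((v2⁻¹).isUnit.pow 4)).mul (IsUnit.of_mul_eq_one_right t2 hts)
  · rw [hT, e1, e2, ← ht1, ← ht2]
    have hv : (v2 : S) * ((v2⁻¹ : Sˣ) : S) = 1 := v2.mul_inv
    have g1 : (μ ^ H1.natDegree) ^ 8 * (rs (ϖ * (ϖ + 2)) H1) ^ 8 = (v1 : S) ^ 8 := by
      rw [hv1]; ring
    have g2 : (μ ^ H2.natDegree) ^ 8 * (rs (ϖ * (ϖ + 2)) H2) ^ 8 = (v2 : S) ^ 8 := by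
      rw [hv2]; ring
    generalize rs (ϖ * (ϖ + 2)) A = a at *
    generalize rs Mr (A * (G + H1 ^ 8) + C b) = c at *
    calc κ * (μ ^ H1.natDegree) ^ 8 * (a * rs (ϖ * (ϖ + 2)) H1 ^ 8 * t1 * c)
        = κ * a * c * t1 * ((μ ^ H1.natDegree) ^ 8 * (rs (ϖ * (ϖ + 2)) H1) ^ 8) := by ring
      _ = κ * a * c * t1 * (v1 : S) ^ 8 := by rw [g1]
      _ = κ * a * c * t1 * (v1 : S) ^ 8 * ((v2 : S) * ((v2⁻¹ : Sˣ) : S)) ^ 8 * (t2 * s2) ^ 2 := by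
          rw [hv, hts]; ring
      _ = ((v1 : S) ^ 4 * ((v2⁻¹ : Sˣ) : S) ^ 4 * s2) ^ 2 * (t1 * t2) *
          (κ * a * c * t2 * (v2 : S) ^ 8) := by ring
      _ = ((v1 : S) ^ 4 * ((v2⁻¹ : Sˣ) : S) ^ 4 * s2) ^ 2 * (t1 * t2) *
          (κ * a * c * t2 * ((μ ^ H2.natDegree) ^ 8 * (rs (ϖ * (ϖ + 2)) H2) ^ 8)) := by rw [g2]
      _ = _ := by ring

/-- inverses modulo `ϖ + 2` -/
theorem lift_inv {S : Type u} [CommRing S] (h8 : (8 : S) = 0) {ϖ H Y0 x z : S[X]}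
    (hx : H * Y0 - 1 = ϖ * x + 2 * z) :
    IsCoprime ϖ H ∧ ∃ w : S[X], (ϖ + 2) ∣ H * (Y0 * (1 + 2 * w)) - 1 := by
  have h8' := eight_poly h8
  constructor
  · refine ⟨-(x * (1 - 2 * z + 4 * z ^ 2)), Y0 * (1 - 2 * z + 4 * z ^ 2), ?_⟩
    linear_combination (1 - 2 * z + 4 * z ^ 2) * hx + z ^ 3 * h8'
  · refine ⟨-(z - x) + 2 * (z - x) ^ 2, x * (1 - 2 * (z - x) + 4 * (z - x) ^ 2), ?_⟩
    linear_combination (1 - 2 * (z - x) + 4 * (z - x) ^ 2) * hx + (z - x) ^ 3 * h8'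

theorem tr2_pow8 {R : Type u} [CommRing R] [CharP R 2] (n : ℕ) (u : R) :
    tr2 n (u ^ 8) = tr2 n u ^ 8 := by
  unfold tr2
  have h := sum_pow_char_pow (p := 2) (R := R) 3 (Finset.range n) (fun i => u ^ 2 ^ i)
  norm_num at h
  rw [h]
  refine Finset.sum_congr rfl fun i _ => ?_
  rw [← pow_mul, ← pow_mul, mul_comm]

theorem isUnit_lift {K : Type u} [Field K] [CharP K 2] {x : WittVector 2 K}
    (h : IsUnit (q8 K x)) : IsUnit x := by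
  have h1 : IsUnit (red K (q8 K x)) := h.map (red K)
  rw [red_q8] at h1
  exact WittVector.isUnit_of_coeff_zero_ne_zero x h1.ne_zero

/-- TOG -/
theorem main (hP : S_PAR.{u}) (hT : S_TRC.{u}) (hN : S_NRM.{u}) (hC : S_CNG.{u})
    (hV : S_VAR.{u}) : S_TOG.{u} := by
  intro K _ _ _ m hm A G ϖ Mr b μ hA hϖ hMr hb hμ hirr hM h1 h2 h₁ h₂ y₁ y₂ hm1 hm2 hG1 hG2 hMd
    hy1 hy2 hs1 hs2
  have h8 : (8 : S8 K) = 0 := eight_S8 K
  have hϖd : (ϖ.map (red K)).natDegree = ϖ.natDegree := hϖ.natDegree_map _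
  have hϖ0 : 0 < ϖ.natDegree := by rw [← hϖd]; exact hirr.natDegree_pos
  -- lifts to `S8 K`
  obtain ⟨H1, e1, d1, hH1⟩ := lift_monic (red K) (red_surjective K) hm1
  obtain ⟨H2, e2, d2, hH2⟩ := lift_monic (red K) (red_surjective K) hm2
  obtain ⟨Z1, hZ1⟩ := map_surjective (red K) (red_surjective K) y₁
  obtain ⟨Z2, hZ2⟩ := map_surjective (red K) (red_surjective K) y₂
  obtain ⟨x1, z1, hx1⟩ := exists_of_dvd (K := K) (f := ϖ) (p := H1 * Z1 - 1) (by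
    rw [Polynomial.map_sub, Polynomial.map_mul, e1, hZ1, Polynomial.map_one]; exact hy1)
  obtain ⟨x2, z2, hx2⟩ := exists_of_dvd (K := K) (f := ϖ) (p := H2 * Z2 - 1) (by
    rw [Polynomial.map_sub, Polynomial.map_mul, e2, hZ2, Polynomial.map_one]; exact hy2)
  obtain ⟨c1, w1, hw1⟩ := lift_inv h8 hx1
  obtain ⟨c2, w2, hw2⟩ := lift_inv h8 hx2
  have h20 : (2 : K) = 0 := CharP.cast_eq_zero K 2
  have h20' : (2 : K[X]) = 0 := by
    have : (2 : K[X]) = C (2 : K) := (map_ofNat C 2).symm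
    rw [this, h20, C_0]
  have eY : ∀ (Z w : (S8 K)[X]), (Z * (1 + 2 * w)).map (red K) = Z.map (red K) := by
    intro Z w
    rw [Polynomial.map_mul, Polynomial.map_add, Polynomial.map_mul, Polynomial.map_one,
      Polynomial.map_ofNat, h20', zero_mul, add_zero, mul_one]
  obtain ⟨x, z, hxz⟩ := exists_of_dvd (K := K) (f := Mr) (p := H1 - H2) (by
    rw [Polynomial.map_sub, e1, e2]; exact hMd)
  obtain ⟨ρ, hρ, hdsc⟩ := ring_part hN hC hV h8 A G ϖ Mr b μ hA hϖ hϖ0 hMr hb hμ hM h1 h2 H1 H2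
    (Z1 * (1 + 2 * w1)) (Z2 * (1 + 2 * w2)) hH1 hH2 (by rw [d1]; exact hG1)
    (by rw [d2]; exact hG2) c1 c2 hw1 hw2 ⟨x, z, hxz⟩
  -- the polynomials `L`
  have mon : ∀ H : (S8 K)[X], H.Monic → G.natDegree < 8 * H.natDegree →
      (A * (G + H ^ 8) + C b).Monic ∧
      (A * (G + H ^ 8) + C b).natDegree = A.natDegree + 8 * H.natDegree := by
    intro H hH hG
    have m1 : (G + H ^ 8).Monic := by
      apply (hH.pow 8).add_of_right
      apply degree_lt_degree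
      rw [hH.natDegree_pow]
      exact hG
    have m2 : (G + H ^ 8).natDegree = 8 * H.natDegree := by
      rw [natDegree_add_eq_right_of_natDegree_lt (by rw [hH.natDegree_pow]; exact hG),
        hH.natDegree_pow]
    have m3 : (A * (G + H ^ 8)).natDegree = A.natDegree + 8 * H.natDegree := by
      rw [hA.natDegree_mul m1, m2]
    refine ⟨(hA.mul m1).add_of_left (degree_C_le.trans_lt ?_), ?_⟩
    · apply natDegree_pos_iff_degree_pos.1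
      rw [m3]; omega
    · rw [natDegree_add_C, m3]
  obtain ⟨mL1, dL1⟩ := mon H1 hH1 (by rw [d1]; exact hG1)
  obtain ⟨mL2, dL2⟩ := mon H2 hH2 (by rw [d2]; exact hG2)
  -- lifts to `W(K)`
  obtain ⟨f1, ef1, df1, mf1⟩ := lift_monic (q8 K) (q8_surjective K) mL1
  obtain ⟨f2, ef2, df2, mf2⟩ := lift_monic (q8 K) (q8_surjective K) mL2
  obtain ⟨F, eF, dF, mF⟩ := lift_monic (q8 K) (q8_surjective K) (monic_add_two hϖ hϖ0).1
  obtain ⟨y, hy⟩ := map_surjective (q8 K) (q8_surjective K)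
    ((Z1 * (1 + 2 * w1)) ^ 8 + (Z2 * (1 + 2 * w2)) ^ 8)
  obtain ⟨r, hr⟩ := q8_surjective K ρ
  have ecc : ∀ f : (WittVector 2 K)[X], f.map (cc K) = (f.map (q8 K)).map (red K) := by
    intro f
    rw [Polynomial.map_map, red_comp_q8]
  have eFc : F.map (cc K) = ϖ.map (red K) := by
    rw [ecc, eF, Polynomial.map_add, Polynomial.map_ofNat, h20', add_zero]
  have ef1c : f1.map (cc K) = A.map (red K) * (G.map (red K) + h₁ ^ 8) + C (red K b) := by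
    rw [ecc, ef1, Polynomial.map_add, Polynomial.map_mul, Polynomial.map_add, Polynomial.map_pow,
      e1, map_C]
  have ef2c : f2.map (cc K) = A.map (red K) * (G.map (red K) + h₂ ^ 8) + C (red K b) := by
    rw [ecc, ef2, Polynomial.map_add, Polynomial.map_mul, Polynomial.map_add, Polynomial.map_pow,
      e2, map_C]
  have eyc : y.map (cc K) = (y₁ + y₂) ^ 8 := by
    rw [ecc, hy, Polynomial.map_add, Polynomial.map_pow, Polynomial.map_pow, eY, eY, hZ1, hZ2]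
    have := add_pow_char_pow (p := 2) (n := 3) (R := K[X]) y₁ y₂
    norm_num at this
    exact this.symm
  obtain ⟨ζ, hζ1, hζ2⟩ := hT K m hm F y mF (by rw [eFc]; exact hirr)
  have hζq : rs (ϖ + 2) (1 + 4 * ((Z1 * (1 + 2 * w1)) ^ 8 + (Z2 * (1 + 2 * w2)) ^ 8)) =
      1 + 4 * q8 K ζ := by
    have h3 : q8 K (rs F (1 + 4 * y) - (1 + 4 * ζ)) = 0 :=
      Ideal.Quotient.eq_zero_iff_mem.2 (Ideal.mem_span_singleton.2 hζ1)
    rw [map_sub, sub_eq_zero, map_rs (q8 K) mF, eF, Polynomial.map_add, Polynomial.map_mul,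
      Polynomial.map_one, Polynomial.map_ofNat, hy, map_add, map_mul, map_one, map_ofNat] at h3
    exact h3
  have hpar := hP K m hm f1 f2 r ζ mf1 mf2 (by rw [ef1c]; exact hs1) (by rw [ef2c]; exact hs2)
    (isUnit_lift (by rw [hr]; exact hρ)) (by
      rw [← Ideal.mem_span_singleton, ← Ideal.Quotient.eq_zero_iff_mem]
      show q8 K _ = 0
      rw [map_sub, sub_eq_zero, map_mul, map_mul, map_pow, map_add, map_mul, map_one, map_ofNat,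
        map_dsc (q8 K) mf1, map_dsc (q8 K) mf2, ef1, ef2, hr, ← hζq]
      exact hdsc) (by rw [df1, df2, dL1, dL2]; omega)
  rw [ef1c, ef2c] at hpar
  rw [hpar, hζ2, eFc, eyc, dF, (monic_add_two hϖ hϖ0).2, tr2_pow8]
  constructor
  · intro h
    exact hirr.prime.dvd_of_dvd_pow h
  · intro h
    exact dvd_pow h (by norm_num)

end Pool.Agent.Helper85.C2
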